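import Pool.Agent.W2helper22.CU.Stmts3

/-!
# FINN: circuits with NOT gates on every host, from the spread case
-/

set_option autoImplicit false

namespace Pool.Agent.W2helper37.CU

open Finset Pool.Agent.H540R2 Pool.Agent.W2helper86.KQ Pool.Agent.W2helper22.CU

theorem qq_pos {κ : ℕ} (h : 1 ≤ κ) : 0 < qq κ := by
  unfold qq
  have h1 : (0 : ℝ) < κ := by exact_mod_cast h
  have h2 : (0 : ℝ) < (κ.factorial : ℝ) := by exact_mod_cast κ.factorial_pos
  positivity

theorem qq_le {κ : ℕ} (h : 1 ≤ κ) : qq κ ≤ 1 := by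
  unfold qq
  have h1 : (0 : ℝ) < κ := by exact_mod_cast h
  rw [div_le_one (by positivity)]
  exact_mod_cast κ.factorial_le_pow

theorem qq_step {κ : ℕ} (h : 1 ≤ κ) : qq (κ + 1) ≤ qq κ := by
  unfold qq
  have h1 : (0 : ℝ) < κ := by exact_mod_cast h
  have h2 : (0 : ℝ) < (κ.factorial : ℝ) := by exact_mod_cast κ.factorial_pos
  rw [Nat.factorial_succ, pow_succ]
  push_cast
  have h3 : ((κ : ℝ) + 1) * (κ.factorial : ℝ) / (((κ : ℝ) + 1) ^ κ * ((κ : ℝ) + 1)) =
      (κ.factorial : ℝ) / ((κ : ℝ) + 1) ^ κ := by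
    field_simp
  rw [h3]
  refine div_le_div_of_nonneg_left h2.le (by positivity) ?_
  exact pow_le_pow_left₀ h1.le (by linarith) κ

theorem qq_anti {a b : ℕ} (h : 1 ≤ a) (hab : a ≤ b) : qq b ≤ qq a := by
  induction b, hab using Nat.le_induction with
  | base => exact le_rfl
  | succ b hb ih => exact (qq_step (h.trans hb)).trans ih

/-- the choice of `p` -/
theorem choose_p (k : ℕ) {q e : ℝ} (q0 : 0 < q) (q1 : q ≤ 1) (e0 : 0 < e) (e1 : e ≤ 1) :
    ∃ d : ℝ, 0 < d ∧ ∀ N : ℕ, 2 ≤ N → ∃ p : ℕ, 2 ≤ p ∧ (p : ℝ) ≤ d * Real.log N ∧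
      (1 - q) ^ p * (2 ^ k * N * (3 * N + 1)) < e := by
  set c : ℝ := (k + 2) + 2 + Real.log (1 / e) / Real.log 2 with hc
  have l2 : 0 < Real.log 2 := Real.log_pos (by norm_num)
  have lq : 0 ≤ Real.log (1 / e) := Real.log_nonneg (by rw [le_div_iff₀ e0]; linarith)
  have c0 : 0 < c := by positivity
  set d : ℝ := c / q + 2 / Real.log 2 with hd
  have d0 : 0 < d := by positivity
  refine ⟨d, d0, fun N hN => ?_⟩
  have N2 : (2 : ℝ) ≤ (N : ℝ) := by exact_mod_cast hN
  have N0 : (0 : ℝ) < (N : ℝ) := by linarith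
  have lN : Real.log 2 ≤ Real.log N := Real.log_le_log (by norm_num) N2
  have lN0 : 0 < Real.log N := l2.trans_le lN
  set p : ℕ := ⌊c * Real.log N / q⌋₊ + 2 with hp
  have p1 : c * Real.log N / q < (p : ℝ) := by
    have := Nat.lt_floor_add_one (c * Real.log N / q)
    rw [hp]
    push_cast
    linarith
  have p2 : (p : ℝ) ≤ d * Real.log N := by
    have h1 : (⌊c * Real.log N / q⌋₊ : ℝ) ≤ c * Real.log N / q := Nat.floor_le (by positivity)
    have h2 : 2 ≤ 2 / Real.log 2 * Real.log N := by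
      rw [div_mul_eq_mul_div, le_div_iff₀ l2]
      nlinarith
    have h3 : d * Real.log N = c * Real.log N / q + 2 / Real.log 2 * Real.log N := by
      rw [hd]; ring
    rw [hp, h3]
    push_cast
    linarith
  refine ⟨p, by omega, p2, ?_⟩
  have h1 : (1 - q) ^ p ≤ Real.exp (-(q * p)) := by
    have h2 : 1 - q ≤ Real.exp (-q) := by
      have := Real.add_one_le_exp (-q)
      linarith
    calc (1 - q) ^ p ≤ Real.exp (-q) ^ p := pow_le_pow_left₀ (by linarith) h2 p
      _ = Real.exp (-(q * p)) := by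
          rw [← Real.exp_nat_mul]
          congr 1
          ring
  have h3 : (2 ^ k * (N : ℝ) * (3 * N + 1)) ≤ 2 ^ (k + 2) * (N : ℝ) ^ 2 := by
    have : (2 : ℝ) ^ (k + 2) = 4 * 2 ^ k := by ring
    rw [this]
    have h4 : (0 : ℝ) < 2 ^ k := by positivity
    nlinarith [mul_pos h4 N0]
  have h5 : Real.log (2 ^ (k + 2) * (N : ℝ) ^ 2 / e) ≤ c * Real.log N := by
    rw [div_eq_mul_one_div, Real.log_mul (by positivity) (by positivity),
      Real.log_mul (by positivity) (by positivity), Real.log_pow, Real.log_pow]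
    push_cast
    have h6 : Real.log (1 / e) ≤ Real.log (1 / e) / Real.log 2 * Real.log N := by
      rw [div_mul_eq_mul_div, le_div_iff₀ l2]
      exact mul_le_mul_of_nonneg_left lN lq
    have h7 : ((k : ℝ) + 2) * Real.log 2 ≤ ((k : ℝ) + 2) * Real.log N :=
      mul_le_mul_of_nonneg_left lN (by positivity)
    have h8 : c * Real.log N = ((k : ℝ) + 2) * Real.log N + 2 * Real.log N +
        Real.log (1 / e) / Real.log 2 * Real.log N := by
      rw [hc]; ring
    rw [h8]
    linarith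
  have h9 : c * Real.log N < q * p := by
    have := (div_lt_iff₀ q0).1 p1
    linarith
  have h10 : 2 ^ (k + 2) * (N : ℝ) ^ 2 / e < Real.exp (q * p) := by
    rw [← Real.log_lt_iff_lt_exp (by positivity)]
    linarith
  have h11 : 2 ^ (k + 2) * (N : ℝ) ^ 2 < e * Real.exp (q * p) := by
    rw [div_lt_iff₀ e0] at h10
    linarith
  calc (1 - q) ^ p * (2 ^ k * N * (3 * N + 1))
      ≤ Real.exp (-(q * p)) * (2 ^ (k + 2) * (N : ℝ) ^ 2) :=
        mul_le_mul h1 h3 (by positivity) (Real.exp_pos _).le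
    _ < Real.exp (-(q * p)) * (e * Real.exp (q * p)) :=
        mul_lt_mul_of_pos_left h11 (Real.exp_pos _)
    _ = e := by
        rw [Real.exp_neg]
        field_simp

lemma dg_empty {n : ℕ} (H : SimpleGraph (Fin n)) (k : ℕ) : dg H k ∅ = cliques H k := by
  classical
  rw [← card_cl]
  unfold dg
  congr 1
  ext s
  simp

/-- the growth condition -/
lemma spread_cond {k k' P : ℕ} (hk : 1 ≤ k) (hk' : k' ≤ k) (hP : 1 ≤ P) :
    16 * ((1 + (P : ℝ) / ((32 * k * P : ℕ) : ℝ)) ^ k' - 1) ≤ 1 := by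
  have k0 : (0 : ℝ) < k := by exact_mod_cast hk
  have P0 : (0 : ℝ) < P := by exact_mod_cast hP
  have h1 : (P : ℝ) / ((32 * k * P : ℕ) : ℝ) = 1 / (32 * k) := by
    push_cast
    field_simp
  rw [h1]
  set x : ℝ := 1 / (32 * k) with hx
  have x0 : 0 < x := by positivity
  have h2 : (1 + x) ^ k' ≤ Real.exp (1 / 32) := by
    have h3 : 1 + x ≤ Real.exp x := by
      have := Real.add_one_le_exp x
      linarith
    calc (1 + x) ^ k' ≤ (1 + x) ^ k := pow_le_pow_right₀ (by linarith) hk'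
      _ ≤ Real.exp x ^ k := pow_le_pow_left₀ (by linarith) h3 k
      _ = Real.exp (1 / 32) := by
          rw [← Real.exp_nat_mul]
          congr 1
          rw [hx]
          field_simp
  have h4 : Real.exp (1 / 32) ≤ 32 / 31 := by
    have h5 := Real.add_one_le_exp (-(1 / 32) : ℝ)
    rw [Real.exp_neg] at h5
    have h6 : (0 : ℝ) < Real.exp (1 / 32) := Real.exp_pos _
    have h7 : (31 / 32 : ℝ) ≤ (Real.exp (1 / 32))⁻¹ := by linarith
    have h8 : (31 / 32 : ℝ) * Real.exp (1 / 32) ≤ 1 := by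
      calc (31 / 32 : ℝ) * Real.exp (1 / 32) ≤ (Real.exp (1 / 32))⁻¹ * Real.exp (1 / 32) :=
            mul_le_mul_of_nonneg_right h7 h6.le
        _ = 1 := inv_mul_cancel₀ h6.ne'
    linarith
  linarith

/-- the combinatorial part -/
theorem comb (hSp : P_SPREADN) (hS : P_SPR) (hL : P_LINK) (hO : P_ONE) {k : ℕ} (hk : 2 ≤ k)
    {n : ℕ} (H : SimpleGraph (Fin n)) (hM : 2 ≤ cliques H k) (C : H540R2.Circuit (n.choose 2))
    (hC : Separates H k C) {p P : ℕ} (hp : 2 ≤ p) (hP : 1 ≤ P)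
    (hPt : 4 * (2 : ℝ) ^ C.nots ≤ qq (k - 1) * P)
    (hpM : (1 - qq (k - 1)) ^ p * (2 ^ k * cliques H k * (3 * cliques H k + 1)) <
      qq (k - 1) / 2) :
    cliques H k ≤ (32 * k * P) ^ k *
      (14 * (C.size + 1) * (p ^ (k - 1) * (k - 1).factorial) ^ 2) := by
  classical
  set R : ℕ := 32 * k * P with hR
  have hR1 : 1 ≤ R := by
    rw [hR]
    exact Nat.one_le_iff_ne_zero.2 (by positivity)
  have hPR : P ≤ R := by
    rw [hR]
    exact Nat.le_mul_of_pos_left P (by positivity)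
  set E : ℕ := (p ^ (k - 1) * (k - 1).factorial) ^ 2 with hE
  have hE1 : 1 ≤ E := by
    rw [hE]
    exact Nat.one_le_iff_ne_zero.2 (by positivity)
  have hcard : ∀ s ∈ cl H k, s.card = k := fun s hs => (mem_cl.1 hs).card_eq
  have hne : (cl H k).Nonempty := by
    rw [← Finset.card_pos, card_cl]
    omega
  obtain ⟨Z, ⟨s, hs, hZs⟩, h1, h2⟩ := hS n k R (cl H k) hne hcard hR1
  have hdg : ∀ Y : Finset (Fin n), ((cl H k).filter (fun s => Y ⊆ s)).card = dg H k Y := by
    intro Y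
    unfold dg
    congr 1
  rw [hdg, card_cl] at h1
  have h2' : ∀ Y, Z ⊆ Y → dg H k Y * R ^ (Y.card - Z.card) ≤ dg H k Z := by
    intro Y hY
    have h3 := h2 Y hY
    rwa [hdg, hdg] at h3
  have hZk : Z.card ≤ k := by
    rw [← hcard s hs]
    exact Finset.card_le_card hZs
  have hZc : H.IsClique (Z : Set (Fin n)) :=
    (mem_cl.1 hs).isClique.subset (by exact_mod_cast hZs)
  have hdM : dg H k Z ≤ cliques H k := by
    rw [← dg_empty]
    exact dg_anti (Finset.empty_subset Z)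
  have hd1 : 1 ≤ dg H k Z := by
    by_contra hcon
    have h3 : dg H k Z = 0 := by omega
    rw [h3, mul_zero] at h1
    omega
  rcases Nat.lt_or_ge (Z.card + 1) k with hlt | hge
  · -- the general case
    obtain ⟨H', C', hs', hsz, hnt, hY1, hY2⟩ := hL n k H Z C (by omega) hZc hC
    set k' := k - Z.card with hk'
    have hk2 : 2 ≤ k' := by omega
    have hc' : cliques H' k' = dg H k Z := by
      rw [← dg_empty, hY1 ∅ (Finset.disjoint_empty_left Z), Finset.union_empty]
    have hq' : qq (k - 1) ≤ qq (k' - 1) := qq_anti (by omega) (by omega)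
    have q0 : 0 < qq (k - 1) := qq_pos (by omega)
    have q1 : qq (k' - 1) ≤ 1 := qq_le (by omega)
    have hP0 : (0 : ℝ) ≤ P := Nat.cast_nonneg P
    have h3 := hSp n k' p P R H' C' hk2 hp hP hR1 hs' (by rw [hc']; exact hd1)
      (by
        intro Y
        by_cases hd : Disjoint Y Z
        · rw [hY1 Y hd, hc']
          have h4 := h2' (Z ∪ Y) Finset.subset_union_left
          rw [Finset.card_union_of_disjoint hd.symm, Nat.add_sub_cancel_left] at h4
          exact h4
        · rw [hY2 Y hd]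
          simp)
      (by
        rw [hR]
        exact spread_cond (by omega) (by omega) hP)
      (by
        calc 4 * (2 : ℝ) ^ C'.nots ≤ 4 * (2 : ℝ) ^ C.nots := by
              gcongr
              norm_num
          _ ≤ qq (k - 1) * P := hPt
          _ ≤ qq (k' - 1) * P := mul_le_mul_of_nonneg_right hq' hP0)
      (by
        have hMM : (cliques H' k' : ℝ) ≤ cliques H k := by
          rw [hc']
          exact_mod_cast hdM
        have hb : (1 - qq (k' - 1)) ^ p ≤ (1 - qq (k - 1)) ^ p :=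
          pow_le_pow_left₀ (by linarith) (by linarith) p
        have h2k : (2 : ℝ) ^ k' ≤ 2 ^ k := pow_le_pow_right₀ (by norm_num) (by omega)
        calc (1 - qq (k' - 1)) ^ p * (2 ^ k' * cliques H' k' * (3 * cliques H' k' + 1))
            ≤ (1 - qq (k - 1)) ^ p * (2 ^ k * cliques H k * (3 * cliques H k + 1)) := by
              have hb0 : 0 ≤ (1 - qq (k - 1)) ^ p := pow_nonneg (by linarith) p
              gcongr
          _ < qq (k - 1) / 2 := hpM
          _ ≤ qq (k' - 1) / 2 := by linarith)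
    rw [hc'] at h3
    have h5 : p ^ (k' - 1) * (k' - 1).factorial ≤ p ^ (k - 1) * (k - 1).factorial :=
      Nat.mul_le_mul (Nat.pow_le_pow_right (by omega) (by omega))
        (Nat.factorial_le (by omega))
    have h6 : (3 * C'.size + 1) * (p ^ (k' - 1) * (k' - 1).factorial) ^ 2 ≤
        (7 * (C.size + 1)) * E := by
      refine Nat.mul_le_mul (by omega) ?_
      rw [hE]
      exact Nat.pow_le_pow_left h5 2
    have h7 : R ^ Z.card * P ^ k' ≤ R ^ k := by
      calc R ^ Z.card * P ^ k' ≤ R ^ Z.card * R ^ k' :=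
            Nat.mul_le_mul le_rfl (Nat.pow_le_pow_left hPR k')
        _ = R ^ k := by
            rw [← pow_add]
            congr 1
            omega
    calc cliques H k ≤ R ^ Z.card * dg H k Z := h1
      _ ≤ R ^ Z.card * (2 * P ^ k' * ((3 * C'.size + 1) *
          (p ^ (k' - 1) * (k' - 1).factorial) ^ 2)) := Nat.mul_le_mul le_rfl h3
      _ = (R ^ Z.card * P ^ k') * (2 * ((3 * C'.size + 1) *
          (p ^ (k' - 1) * (k' - 1).factorial) ^ 2)) := by ring
      _ ≤ R ^ k * (2 * (7 * (C.size + 1) * E)) :=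
          Nat.mul_le_mul h7 (Nat.mul_le_mul le_rfl h6)
      _ = R ^ k * (14 * (C.size + 1) * E) := by ring
  · -- at most one more vertex
    have hbound : dg H k Z ≤ 14 * (C.size + 1) := by
      rcases Nat.lt_or_ge Z.card k with h3 | h3
      · have h4 := hO n k H Z C hk (by omega) hZc hC
        omega
      · have h4 : dg H k Z ≤ 1 := by
          rw [← hdg, Finset.card_le_one]
          intro a ha b hb
          rw [Finset.mem_filter] at ha hb
          have h5 : Z = a := Finset.eq_of_subset_of_card_le ha.2 (by rw [hcard a ha.1]; exact h3)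
          have h6 : Z = b := Finset.eq_of_subset_of_card_le hb.2 (by rw [hcard b hb.1]; exact h3)
          rw [← h5, ← h6]
        omega
    calc cliques H k ≤ R ^ Z.card * dg H k Z := h1
      _ ≤ R ^ k * (14 * (C.size + 1)) :=
          Nat.mul_le_mul (Nat.pow_le_pow_right hR1 hZk) hbound
      _ ≤ R ^ k * (14 * (C.size + 1) * E) :=
          Nat.mul_le_mul le_rfl (Nat.le_mul_of_pos_right _ hE1)

theorem p_finn : P_SPREADN → P_SPR → P_LINK → P_ONE → P_FINN := by
  intro hSp hS hL hO k hk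
  set q : ℝ := qq (k - 1) with hq
  have hk1 : 1 ≤ k - 1 := by omega
  have q0 : 0 < q := qq_pos hk1
  have q1 : q ≤ 1 := qq_le hk1
  obtain ⟨d, d0, hd⟩ := choose_p k q0 q1 (e := q / 2) (by positivity) (by linarith)
  have k0 : (0 : ℝ) < k := by
    have : 0 < k := by omega
    exact_mod_cast this
  refine ⟨14 * (160 * k / q) ^ k * (d ^ (k - 1) * ((k - 1).factorial : ℝ)) ^ 2, ?_⟩
  intro n H hN C hC
  obtain ⟨p, hp2, hpd, hpM⟩ := hd (cliques H k) hN
  set M : ℕ := cliques H k with hMd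
  set t : ℕ := C.nots with ht
  set P : ℕ := ⌈4 * (2 : ℝ) ^ t / q⌉₊ with hPdef
  have hP0 : 0 < 4 * (2 : ℝ) ^ t / q := by positivity
  have hP1 : 1 ≤ P := Nat.one_le_ceil_iff.2 hP0
  have hPl : 4 * (2 : ℝ) ^ t / q ≤ (P : ℝ) := Nat.le_ceil _
  have hPt : 4 * (2 : ℝ) ^ t ≤ q * P := by
    rw [div_le_iff₀ q0] at hPl
    linarith
  have hPu : (P : ℝ) ≤ 5 * (2 : ℝ) ^ t / q := by
    have h1 : (P : ℝ) < 4 * (2 : ℝ) ^ t / q + 1 := Nat.ceil_lt_add_one hP0.le
    have h2 : (1 : ℝ) ≤ 2 ^ t / q := by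
      rw [le_div_iff₀ q0]
      have : (1 : ℝ) ≤ 2 ^ t := one_le_pow₀ (by norm_num)
      linarith
    have h3 : 5 * (2 : ℝ) ^ t / q = 4 * (2 : ℝ) ^ t / q + 2 ^ t / q := by ring
    rw [h3]
    linarith
  have h := comb hSp hS hL hO hk H hN C hC hp2 hP1 hPt hpM
  have h' : (M : ℝ) ≤ (32 * k * (P : ℝ)) ^ k *
      (14 * ((C.size : ℝ) + 1) * ((p : ℝ) ^ (k - 1) * ((k - 1).factorial : ℝ)) ^ 2) := by
    exact_mod_cast h
  have hR : (32 * (k : ℝ) * (P : ℝ)) ^ k ≤ (160 * k / q) ^ k * 2 ^ (k * t) := by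
    have e : (2 : ℝ) ^ (k * t) = (2 ^ t) ^ k := by
      rw [mul_comm, pow_mul]
    rw [e, ← mul_pow]
    refine pow_le_pow_left₀ (by positivity) ?_ k
    calc 32 * (k : ℝ) * (P : ℝ) ≤ 32 * (k : ℝ) * (5 * (2 : ℝ) ^ t / q) := by gcongr
      _ = 160 * k / q * 2 ^ t := by ring
  have hpp : (p : ℝ) ^ (k - 1) ≤ d ^ (k - 1) * Real.log M ^ (k - 1) := by
    rw [← mul_pow]
    exact pow_le_pow_left₀ (by positivity) hpd _
  have hF : (0 : ℝ) ≤ ((k - 1).factorial : ℝ) := by positivity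
  have h2 : ((p : ℝ) ^ (k - 1) * ((k - 1).factorial : ℝ)) ^ 2 ≤
      (d ^ (k - 1) * ((k - 1).factorial : ℝ)) ^ 2 * Real.log M ^ (2 * k - 2) := by
    have e : Real.log M ^ (2 * k - 2) = (Real.log M ^ (k - 1)) ^ 2 := by
      rw [← pow_mul]
      congr 1
      omega
    rw [e, ← mul_pow]
    refine pow_le_pow_left₀ (by positivity) ?_ 2
    calc (p : ℝ) ^ (k - 1) * ((k - 1).factorial : ℝ)
        ≤ (d ^ (k - 1) * Real.log M ^ (k - 1)) * ((k - 1).factorial : ℝ) :=
          mul_le_mul_of_nonneg_right hpp hF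
      _ = d ^ (k - 1) * ((k - 1).factorial : ℝ) * Real.log M ^ (k - 1) := by ring
  calc (M : ℝ) ≤ (32 * k * (P : ℝ)) ^ k *
      (14 * ((C.size : ℝ) + 1) * ((p : ℝ) ^ (k - 1) * ((k - 1).factorial : ℝ)) ^ 2) := h'
    _ ≤ ((160 * k / q) ^ k * 2 ^ (k * t)) * (14 * ((C.size : ℝ) + 1) *
        ((d ^ (k - 1) * ((k - 1).factorial : ℝ)) ^ 2 * Real.log M ^ (2 * k - 2))) := by
        gcongr
    _ = _ := by ring

end Pool.Agent.W2helper37.CU
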